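import Mathlib

set_option autoImplicit false

/-!
# From counts by height to counts by radical
-/

namespace Pool.Agent.R365.RC

open Filter Topology

/-- the points with `N ≤ log X` and `M N ≤ h ≤ A log X` -/
def win {ι : Type*} (Ω : Set ι) (h N : ι → ℝ) (M A X : ℝ) : Set ι :=
  {x | x ∈ Ω ∧ Real.exp (N x) ≤ X ∧ M * N x ≤ h x ∧ h x ≤ A * Real.log X}

/-- from counts by height to counts by radical -/
theorem upper {ι : Type*} (Ω : Set ι) (h N : ι → ℝ) (d M A E : ℝ) (hd : 0 < d) (hM : 0 < M)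
    (hMA : M ≤ A) (hE : 0 ≤ E) (e : ℝ → ℝ) (he : ∀ y, M ≤ y → y ≤ A → y * e y ≤ E)
    (H : ∀ y, M ≤ y → y ≤ A → ∀ δ : ℝ, 0 < δ → ∃ C : ℝ, ∀ B : ℝ, 1 ≤ B →
      {x | x ∈ Ω ∧ Real.exp (h x) ≤ B ∧ N x ≤ y⁻¹ * h x}.Finite ∧
      (({x | x ∈ Ω ∧ Real.exp (h x) ≤ B ∧ N x ≤ y⁻¹ * h x}.ncard : ℝ)) ≤ C * B ^ (d * e y + δ))
    (δ : ℝ) (hδ : 0 < δ) : ∃ C : ℝ, 0 < C ∧ ∀ X : ℝ, 1 ≤ X → (win Ω h N M A X).Finite ∧
      ((win Ω h N M A X).ncard : ℝ) ≤ C * X ^ (d * E + δ) := by
  classical
  have hA : 0 < A := hM.trans_le hMA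
  -- the mesh
  set μ : ℝ := δ * M / (2 * (d * E + 1)) with hμ
  have hdE : 0 < d * E + 1 := by positivity
  have hμ0 : 0 < μ := by rw [hμ]; positivity
  set δ' : ℝ := δ / (2 * (A + μ)) with hδ'
  have hδ'0 : 0 < δ' := by rw [hδ']; positivity
  obtain ⟨n, hn⟩ := exists_nat_gt ((A - M) / μ)
  set y : ℕ → ℝ := fun j => min (M + j * μ) A with hy
  have hyM : ∀ j, M ≤ y j := fun j => le_min (by
    have : (0 : ℝ) ≤ j * μ := by positivity
    linarith) hMA
  have hyA : ∀ j, y j ≤ A := fun j => min_le_right _ _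
  have hC : ∀ j : ℕ, ∃ C : ℝ, ∀ B : ℝ, 1 ≤ B →
      {x | x ∈ Ω ∧ Real.exp (h x) ≤ B ∧ N x ≤ (y j)⁻¹ * h x}.Finite ∧
      (({x | x ∈ Ω ∧ Real.exp (h x) ≤ B ∧ N x ≤ (y j)⁻¹ * h x}.ncard : ℝ)) ≤
        C * B ^ (d * e (y j) + δ') := fun j => H (y j) (hyM j) (hyA j) δ' hδ'0
  choose C hC using hC
  refine ⟨∑ j ∈ Finset.range (n + 1), |C j| + 1, by
    have : 0 ≤ ∑ j ∈ Finset.range (n + 1), |C j| := Finset.sum_nonneg fun j _ => abs_nonneg _
    linarith, fun X hX => ?_⟩
  have hX0 : 0 < X := by linarith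
  have hlog : 0 ≤ Real.log X := Real.log_nonneg hX
  set S : ℕ → Set ι := fun j => {x | x ∈ Ω ∧ Real.exp (h x) ≤ X ^ (y j + μ) ∧
    N x ≤ (y j)⁻¹ * h x} with hS
  have hB1 : ∀ j, 1 ≤ X ^ (y j + μ) := fun j => Real.one_le_rpow hX (by linarith [hyM j])
  have hfin : ∀ j, (S j).Finite := fun j => (hC j _ (hB1 j)).1
  have hcov : win Ω h N M A X ⊆ ⋃ j ∈ Finset.range (n + 1), S j := by
    rintro x ⟨hx1, hx2, hx3, hx4⟩
    have hN : N x ≤ Real.log X := by
      rwa [Real.le_log_iff_exp_le hX0]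
    simp only [Set.mem_iUnion, Finset.mem_range, exists_prop]
    rcases le_or_gt (h x) (M * Real.log X) with hle | hgt
    · refine ⟨0, Nat.succ_pos _, hx1, ?_, ?_⟩
      · have h0 : y 0 = M := by
          simp only [hy]
          rw [Nat.cast_zero, zero_mul, add_zero]
          exact min_eq_left hMA
        rw [h0, ← Real.le_log_iff_exp_le (by positivity), Real.log_rpow hX0]
        have : 0 ≤ μ * Real.log X := by positivity
        nlinarith
      · have h0 : y 0 = M := by
          simp only [hy]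
          rw [Nat.cast_zero, zero_mul, add_zero]
          exact min_eq_left hMA
        rw [h0, inv_mul_eq_div, le_div_iff₀ hM]
        linarith
    · -- choose j
      have hlogpos : 0 < Real.log X := by
        rcases hlog.lt_or_eq with h1 | h1
        · exact h1
        · exfalso
          rw [← h1] at hgt hx4
          linarith
      set z : ℝ := h x / Real.log X with hz
      have hzh : z * Real.log X = h x := by
        rw [hz]; field_simp
      have hzM : M < z := by
        rw [hz, lt_div_iff₀ hlogpos]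
        exact hgt
      have hzA : z ≤ A := by
        rw [hz, div_le_iff₀ hlogpos]
        exact hx4
      set j : ℕ := ⌊(z - M) / μ⌋₊ with hj
      have hj1 : (j : ℝ) ≤ (z - M) / μ := Nat.floor_le (by
        have : 0 ≤ z - M := by linarith
        positivity)
      have hj2 : (z - M) / μ < j + 1 := Nat.lt_floor_add_one _
      have hj3 : (j : ℝ) * μ ≤ z - M := by
        rwa [le_div_iff₀ hμ0] at hj1
      have hj4 : z - M < (j + 1) * μ := by
        rwa [div_lt_iff₀ hμ0] at hj2
      have hyj : y j = M + j * μ := by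
        simp only [hy]
        exact min_eq_left (by linarith)
      have hjn : j < n + 1 := by
        have h1 : (j : ℝ) < n := by
          refine lt_of_le_of_lt ?_ hn
          rw [le_div_iff₀ hμ0]
          linarith
        have h2 : j < n := by exact_mod_cast h1
        omega
      refine ⟨j, hjn, hx1, ?_, ?_⟩
      · rw [← Real.le_log_iff_exp_le (by positivity), Real.log_rpow hX0, hyj, ← hzh]
        refine mul_le_mul_of_nonneg_right ?_ hlog
        nlinarith
      · have hyj0 : 0 < y j := hM.trans_le (hyM j)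
        rw [inv_mul_eq_div, le_div_iff₀ hyj0]
        have h5 : y j ≤ z := by rw [hyj]; linarith
        have h7 : 0 < z := hM.trans hzM
        calc N x * y j ≤ Real.log X * y j := mul_le_mul_of_nonneg_right hN hyj0.le
          _ ≤ Real.log X * z := mul_le_mul_of_nonneg_left h5 hlog
          _ = h x := by rw [mul_comm]; exact hzh
  have hfinU : (⋃ j ∈ Finset.range (n + 1), S j).Finite :=
    Set.Finite.biUnion (Finset.finite_toSet _) fun j _ => hfin j
  refine ⟨hfinU.subset hcov, ?_⟩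
  have h1 : ((win Ω h N M A X).ncard : ℝ) ≤ ∑ j ∈ Finset.range (n + 1), ((S j).ncard : ℝ) := by
    have h2 : (win Ω h N M A X).ncard ≤ ∑ j ∈ Finset.range (n + 1), (S j).ncard := by
      refine (Set.ncard_le_ncard hcov hfinU).trans ?_
      exact Finset.set_ncard_biUnion_le _ _
    exact_mod_cast h2
  refine h1.trans ?_
  have h2 : ∀ j ∈ Finset.range (n + 1), ((S j).ncard : ℝ) ≤ |C j| * X ^ (d * E + δ) := by
    intro j _
    have h3 := (hC j _ (hB1 j)).2
    refine h3.trans ?_
    have hpos : 0 ≤ (X ^ (y j + μ)) ^ (d * e (y j) + δ') := by positivity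
    refine (mul_le_mul_of_nonneg_right (le_abs_self (C j)) hpos).trans ?_
    refine mul_le_mul_of_nonneg_left ?_ (abs_nonneg _)
    rw [← Real.rpow_mul hX0.le]
    refine Real.rpow_le_rpow_of_exponent_le hX ?_
    have g1 := he (y j) (hyM j) (hyA j)
    have hyj0 : 0 < y j := hM.trans_le (hyM j)
    have g2 : e (y j) ≤ E / M := by
      rw [le_div_iff₀ hM]
      rcases le_or_gt (e (y j)) 0 with h | h
      · nlinarith
      · have := hyM j
        nlinarith
    have g3 : μ * (d * e (y j)) ≤ δ / 2 := by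
      have g4 : μ * (d * e (y j)) ≤ μ * (d * (E / M)) := by
        refine mul_le_mul_of_nonneg_left ?_ hμ0.le
        exact mul_le_mul_of_nonneg_left g2 hd.le
      refine g4.trans ?_
      rw [hμ]
      have g5 : δ * M / (2 * (d * E + 1)) * (d * (E / M)) = δ / 2 * (d * E / (d * E + 1)) := by
        field_simp
      rw [g5]
      have g6 : d * E / (d * E + 1) ≤ 1 := by
        rw [div_le_one hdE]; linarith
      have : 0 < δ / 2 := by linarith
      nlinarith
    have g7 : (y j + μ) * δ' ≤ δ / 2 := by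
      have g8 : (y j + μ) * δ' ≤ (A + μ) * δ' := by
        refine mul_le_mul_of_nonneg_right ?_ hδ'0.le
        linarith [hyA j]
      refine g8.trans (le_of_eq ?_)
      rw [hδ']
      have : A + μ ≠ 0 := by positivity
      field_simp
    have g9 : y j * (d * e (y j)) ≤ d * E := by
      have := mul_le_mul_of_nonneg_left g1 hd.le
      linarith
    nlinarith
  refine (Finset.sum_le_sum h2).trans ?_
  rw [← Finset.sum_mul]
  refine mul_le_mul_of_nonneg_right ?_ (by positivity)
  linarith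

/-- the limit from upper and lower bounds -/
theorem tendsto_log {f : ℝ → ℝ} {E : ℝ}
    (hup : ∀ δ : ℝ, 0 < δ → ∃ C : ℝ, 0 < C ∧ ∀ X : ℝ, 1 ≤ X → f X ≤ C * X ^ (E + δ))
    (hlow : ∀ δ : ℝ, 0 < δ → ∃ C X₀ : ℝ, 0 < C ∧ ∀ X : ℝ, X₀ ≤ X → C * X ^ (E - δ) ≤ f X) :
    Tendsto (fun X : ℝ => Real.log (f X) / Real.log X) atTop (𝓝 E) := by
  rw [tendsto_order]
  constructor
  · intro a ha
    set δ : ℝ := (E - a) / 2 with hδ
    have hδ0 : 0 < δ := by rw [hδ]; linarith
    obtain ⟨C, X₀, hC, h⟩ := hlow δ hδ0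
    have hev : ∀ᶠ X : ℝ in atTop, (-Real.log C) / δ < Real.log X :=
      Real.tendsto_log_atTop.eventually_gt_atTop _
    filter_upwards [hev, eventually_ge_atTop X₀, eventually_gt_atTop (1 : ℝ)] with X h1 h2 h3
    have hX0 : 0 < X := by linarith
    have hlogX : 0 < Real.log X := Real.log_pos h3
    have h4 := Real.log_le_log (by positivity) (h X h2)
    rw [Real.log_mul hC.ne' (by positivity), Real.log_rpow hX0] at h4
    rw [lt_div_iff₀ hlogX]
    rw [div_lt_iff₀ hδ0] at h1
    have h6 : a = E - 2 * δ := by rw [hδ]; ring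
    rw [h6]
    linarith
  · intro a ha
    set δ : ℝ := (a - E) / 2 with hδ
    have hδ0 : 0 < δ := by rw [hδ]; linarith
    obtain ⟨C, hC, h⟩ := hup δ hδ0
    obtain ⟨c, X₀, hc, hl⟩ := hlow 1 one_pos
    have hev : ∀ᶠ X : ℝ in atTop, Real.log C / δ < Real.log X :=
      Real.tendsto_log_atTop.eventually_gt_atTop _
    filter_upwards [hev, eventually_ge_atTop X₀, eventually_gt_atTop (1 : ℝ)] with X h1 h2 h3
    have hX0 : 0 < X := by linarith
    have hlogX : 0 < Real.log X := Real.log_pos h3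
    have hpos : 0 < f X := lt_of_lt_of_le (by positivity) (hl X h2)
    have h5 := Real.log_le_log hpos (h X h3.le)
    rw [Real.log_mul hC.ne' (by positivity), Real.log_rpow hX0] at h5
    rw [div_lt_iff₀ hlogX]
    rw [div_lt_iff₀ hδ0] at h1
    have h6 : a = E + 2 * δ := by rw [hδ]; ring
    rw [h6]
    linarith

end Pool.Agent.R365.RC
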