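import Mathlib
import Pool.Agent.R365.RC.Core
import Pool.Agent.R365.QP.Trans
import Pool.Agent.W221.ExcLow5

set_option autoImplicit false

/-!
# Heights and radicals of the points `(a : b : c)`, and the lower bound
-/

namespace Pool.Agent.R365.RC

open NumberField IsDedekindDomain Height Finset Pool.Agent.H691R3 Pool.Agent.W223.AK
open Pool.Agent.R365.QP

variable {K : Type} [Field K] [NumberField K]

/-- the standard coordinates -/
def z3 {K : Type} [Field K] (y : K) : Fin 3 → K := ![y, 1, -(y + 1)]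

omit [NumberField K] in
theorem z3_sum (y : K) : z3 y 0 + z3 y 1 + z3 y 2 = 0 := by
  show y + 1 + -(y + 1) = 0
  ring

omit [NumberField K] in
theorem z3_one (y : K) : z3 y 1 = 1 := rfl

omit [NumberField K] in
theorem z3_div (y : K) : z3 y 0 / z3 y 1 = y := by
  show y / 1 = y
  exact div_one y

/-- the height depends on the quotient only -/
theorem H3_eq {x : Fin 3 → K} (h1 : x 1 ≠ 0) (hs : x 0 + x 1 + x 2 = 0) :
    H3 x = H3 (z3 (x 0 / x 1)) := by
  have hp := log_product_formula (K := K) h1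
  set t : K := x 0 / x 1 with ht'
  have hfin : (Function.support fun v : HeightOneSpectrum (𝓞 K) =>
      Real.log (max (fv v t) 1)).Finite := by
    have := log_max_support_finite (K := K) (aff_ne_zero t)
    refine this.subset ?_
    intro v hv
    simp only [Function.mem_support] at hv ⊢
    intro h
    apply hv
    have h2 : max (fv v (aff t).1) (fv v (aff t).2) = max (fv v t) 1 := by
      show max (fv v t) (fv v 1) = _
      rw [map_one]
    rw [h2] at h
    exact h
  have e0 : x 0 = x 1 * z3 t 0 := by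
    show x 0 = x 1 * t
    rw [ht', mul_div_cancel₀ _ h1]
  have e1 : x 1 = x 1 * z3 t 1 := by
    show x 1 = x 1 * 1
    ring
  have e2 : x 2 = x 1 * z3 t 2 := by
    show x 2 = x 1 * -(t + 1)
    have : x 1 * t = x 0 := by rw [ht', mul_div_cancel₀ _ h1]
    linear_combination hs + this
  have hF : ∑ᶠ v : HeightOneSpectrum (𝓞 K), Real.log (max (FinitePlace.mk v (x 0))
      (max (FinitePlace.mk v (x 1)) (FinitePlace.mk v (x 2)))) =
      ∑ᶠ v : HeightOneSpectrum (𝓞 K), Real.log (fv v (x 1)) +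
      ∑ᶠ v : HeightOneSpectrum (𝓞 K), Real.log (max (FinitePlace.mk v (z3 t 0))
      (max (FinitePlace.mk v (z3 t 1)) (FinitePlace.mk v (z3 t 2)))) := by
    have hg : ∀ v : HeightOneSpectrum (𝓞 K), Real.log (max (FinitePlace.mk v (z3 t 0))
        (max (FinitePlace.mk v (z3 t 1)) (FinitePlace.mk v (z3 t 2)))) =
        Real.log (max (fv v t) 1) := by
      intro v
      rw [max_fv_eq v (by rw [z3_one]; exact one_ne_zero) (z3_sum t), z3_div, z3_one, map_one,
        one_mul]
    rw [finsum_congr hg, ← finsum_add_distrib (log_fv_support_finite h1) hfin]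
    refine finsum_congr fun v => ?_
    have hm : (0 : ℝ) < max (fv v t) 1 := lt_max_of_lt_right one_pos
    rw [max_fv_eq v h1 hs, Real.log_mul ((fv v).pos h1).ne' hm.ne']
  have hA : ∑ w : InfinitePlace K, (w.mult : ℝ) *
      Real.log (max (w (x 0)) (max (w (x 1)) (w (x 2)))) =
      ∑ w : InfinitePlace K, (w.mult : ℝ) * Real.log (w (x 1)) +
      ∑ w : InfinitePlace K, (w.mult : ℝ) *
        Real.log (max (w (z3 t 0)) (max (w (z3 t 1)) (w (z3 t 2)))) := by
    rw [← Finset.sum_add_distrib]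
    refine Finset.sum_congr rfl fun w _ => ?_
    have hw1 : 0 < w (x 1) := w.pos_iff.mpr h1
    have hw2 : 0 < max (w (z3 t 0)) (max (w (z3 t 1)) (w (z3 t 2))) := by
      refine lt_max_of_lt_right (lt_max_of_lt_left ?_)
      rw [z3_one, map_one]
      exact one_pos
    have hw3 : max (w (x 0)) (max (w (x 1)) (w (x 2))) =
        w (x 1) * max (w (z3 t 0)) (max (w (z3 t 1)) (w (z3 t 2))) := by
      rw [mul_max_of_nonneg _ _ hw1.le, mul_max_of_nonneg _ _ hw1.le, ← map_mul, ← map_mul,
        ← map_mul, ← e0, ← e1, ← e2]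
    rw [hw3, Real.log_mul hw1.ne' hw2.ne']
    ring
  unfold H3
  rw [hF, hA]
  linarith

/-- the radical depends on the quotient only -/
theorem R3_eq_z (T : Set (Pr K)) (hT : T.Finite) {x : Fin 3 → K} (h0 : x 0 ≠ 0) (h1 : x 1 ≠ 0)
    (h2 : x 2 ≠ 0) (hs : x 0 + x 1 + x 2 = 0) : R3 T x = R3 T (z3 (x 0 / x 1)) := by
  have hmem : ∀ v, v ∈ hT.toFinset ↔ v ∈ T := fun v => Set.Finite.mem_toFinset _
  have hPt : Pt (x 0 / x 1) := by
    refine ⟨div_ne_zero h0 h1, ?_⟩
    intro h3
    apply h2
    have h4 : x 0 / x 1 * x 1 = x 0 := div_mul_cancel₀ _ h1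
    have h5 : x 0 / x 1 = -1 := by linear_combination h3
    rw [h5] at h4
    linear_combination hs + h4
  obtain ⟨P, hP⟩ := exists_isP hT.toFinset hPt
  rw [R3_eq hmem h1 hs hP, R3_eq hmem (x := z3 (x 0 / x 1)) (by rw [z3_one]; exact one_ne_zero)
    (z3_sum _) (by rw [z3_div]; exact hP)]

/-- the three points `0`, `∞`, `-1` -/
def α3 (K : Type) [Field K] : Fin 3 → K × K := ![(0, 1), (1, 0), (-1, 1)]

theorem R3_le_NTc (T : Set (Pr K)) (hT : T.Finite) {x : K} (hx : Off (α3 K) x) :
    R3 T (z3 x) ≤ NTc T (α3 K) x := by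
  have hmem : ∀ v, v ∈ hT.toFinset ↔ v ∈ T := fun v => Set.Finite.mem_toFinset _
  have hα0 : ∀ l, α3 K l ≠ 0 := by
    intro l h
    fin_cases l
    · exact one_ne_zero (congrArg Prod.snd h)
    · exact one_ne_zero (congrArg Prod.fst h)
    · exact one_ne_zero (congrArg Prod.snd h)
  have hPt : Pt x := by
    constructor
    · have := hx 0
      intro h
      apply this
      rw [h]
      show (0 : K) * 1 - 1 * 0 = 0
      ring
    · have := hx 2
      intro h
      apply this
      show x * 1 - 1 * (-1) = 0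
      linear_combination h
  obtain ⟨P, hP⟩ := exists_isP hT.toFinset hPt
  rw [R3_eq hmem (x := z3 x) (by rw [z3_one]; exact one_ne_zero)
    (z3_sum _) (by rw [z3_div]; exact hP), NTc_eq T hα0 hx, Fin.sum_univ_three]
  have key : ∀ l : Fin 3, (∀ v : Pr K, fv v (x * (α3 K l).2 - 1 * (α3 K l).1) = fv v (L l x)) →
      (∀ v : Pr K, max (fv v (α3 K l).1) (fv v (α3 K l).2) = 1) →
      rl (P l) ≤ n1 T (α3 K l) x := by
    intro l h1 h2
    refine rl_le_n1 T (hα0 l) (hx l) (P l) ?_
    intro v hv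
    have hvS : v ∉ hT.toFinset := fun h => hv (hP.off l v h)
    refine ⟨fun h => hvS ((hmem v).mpr h), ?_⟩
    have h3 := fv_lt_of_ne hP hv
    show fv v (x * (α3 K l).2 - 1 * (α3 K l).1) < max (fv v x) (fv v 1) * _
    rw [h1 v, h2 v, mul_one, map_one]
    exact h3
  have k0 := key 0 (fun v => by
    rw [L_zero]
    have : x * (α3 K 0).2 - 1 * (α3 K 0).1 = x := by
      show x * 1 - 1 * 0 = x
      ring
    rw [this]) (fun v => by
    show max (fv v 0) (fv v 1) = 1
    rw [map_zero, map_one]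
    exact max_eq_right zero_le_one)
  have k1 := key 1 (fun v => by
    rw [L_one]
    have : x * (α3 K 1).2 - 1 * (α3 K 1).1 = -1 := by
      show x * 0 - 1 * 1 = -1
      ring
    rw [this, map_neg_eq_map]) (fun v => by
    show max (fv v 1) (fv v 0) = 1
    rw [map_zero, map_one]
    exact max_eq_left zero_le_one)
  have k2 := key 2 (fun v => by
    rw [L_two]
    have : x * (α3 K 2).2 - 1 * (α3 K 2).1 = x + 1 := by
      show x * 1 - 1 * (-1) = x + 1
      ring
    rw [this]) (fun v => by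
    show max (fv v (-1)) (fv v 1) = 1
    rw [map_neg_eq_map, map_one]
    exact max_self _)
  linarith

/-- the lower bound -/
theorem low3 (T : Set (Pr K)) (hT : T.Finite) (M δ : ℝ) (hM1 : 1 / 3 ≤ M) (hM2 : M < 1)
    (hδ : 0 < δ) : ∃ C X₀ : ℝ, 0 < C ∧ 1 ≤ X₀ ∧ ∀ X : ℝ, X₀ ≤ X → ∃ E : Finset K,
      (∀ x ∈ E, Pt x ∧ R3 T (z3 x) ≤ Module.finrank ℚ K * Real.log X ∧
        M * R3 T (z3 x) ≤ H3 (z3 x) ∧ H3 (z3 x) ≤ Module.finrank ℚ K * (M * Real.log X)) ∧
      C * X ^ ((Module.finrank ℚ K : ℝ) * (1 - M) - δ) ≤ E.card := by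
  have hM0 : 0 < M := by linarith
  set d : ℝ := (Module.finrank ℚ K : ℝ) with hd
  have hdpos : 0 < d := by
    rw [hd]
    exact_mod_cast Module.finrank_pos
  set ε : ℝ := min (δ / (d * M)) ((1 / M - 1) / 2) with hε
  have hM3 : 0 < 1 / M - 1 := by
    have : 1 < 1 / M := by rw [lt_div_iff₀ hM0]; linarith
    linarith
  have hε0 : 0 < ε := lt_min (by positivity) (by linarith)
  have hε1 : ε ≤ δ / (d * M) := min_le_left _ _
  have hε2 : ε ≤ (1 / M - 1) / 2 := min_le_right _ _
  set κ : ℝ := 3 - 1 / M + ε with hκ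
  have hκ0 : 0 ≤ κ := by
    have : 1 / M ≤ 3 := by rw [div_le_iff₀ hM0]; linarith
    rw [hκ]; linarith
  have hκ2 : κ < 2 := by rw [hκ]; linarith
  have hα0 : ∀ l, α3 K l ≠ 0 := by
    intro l h
    fin_cases l
    · exact one_ne_zero (congrArg Prod.snd h)
    · exact one_ne_zero (congrArg Prod.fst h)
    · exact one_ne_zero (congrArg Prod.snd h)
  have hα : ∀ i j, i ≠ j → wg (α3 K i) (α3 K j) ≠ 0 := by
    intro i j hij
    fin_cases i <;> fin_cases j <;> first | exact absurd rfl hij | (simp [α3, wg])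
  obtain ⟨C, B0, hC, hB0, h⟩ := Pool.Agent.W221.Exc.low (K := K) T (α3 K) hα0 hα (by norm_num) κ 0
    hκ0 hκ2
  set R : ℝ := Real.exp (-(lossK K / d)) with hR
  have hR0 : 0 < R := Real.exp_pos _
  have hloss : 0 ≤ lossK K := by
    unfold lossK
    refine Finset.sum_nonneg fun w _ => ?_
    have := Real.log_nonneg (show (1 : ℝ) ≤ 2 by norm_num)
    positivity
  refine ⟨C * R ^ (d * (2 - κ)), max 1 ((B0 / R) ^ (1 / M)), by positivity, le_max_left _ _,
    fun X hX => ?_⟩
  have hX1 : 1 ≤ X := (le_max_left _ _).trans hX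
  have hX0 : 0 < X := by linarith
  have hlog : 0 ≤ Real.log X := Real.log_nonneg hX1
  have hB0' : 0 < B0 := by linarith
  have hB : B0 ≤ R * X ^ M := by
    have h1 : (B0 / R) ^ (1 / M) ≤ X := (le_max_right _ _).trans hX
    have h2 : ((B0 / R) ^ (1 / M)) ^ M ≤ X ^ M :=
      Real.rpow_le_rpow (by positivity) h1 hM0.le
    rw [← Real.rpow_mul (by positivity), one_div_mul_cancel hM0.ne', Real.rpow_one,
      div_le_iff₀ hR0] at h2
    linarith
  obtain ⟨E, hE, hcard⟩ := h (R * X ^ M) hB
  have hlogB : Real.log (R * X ^ M) = M * Real.log X - lossK K / d := by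
    rw [Real.log_mul hR0.ne' (by positivity), hR, Real.log_exp, Real.log_rpow hX0]
    ring
  refine ⟨E, fun x hx => ?_, ?_⟩
  · obtain ⟨h1, h2, h3⟩ := hE x hx
    rw [hlogB, ← hd] at h3
    have hPt : Pt x := by
      constructor
      · have := h1 0
        intro h
        apply this
        rw [h]
        show (0 : K) * 1 - 1 * 0 = 0
        ring
      · have := h1 2
        intro h
        apply this
        show x * 1 - 1 * (-1) = 0
        linear_combination h
    have hb := H3_bounds (x := z3 x) (by rw [z3_one]; exact one_ne_zero) (z3_sum x)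
    rw [z3_div] at hb
    have hb1 : hr (aff x) ≤ H3 (z3 x) := hb.1
    have hb2 : H3 (z3 x) ≤ hr (aff x) + lossK K := hb.2
    have hR3 := R3_le_NTc T hT h1
    have hhr : 0 ≤ hr (aff x) := by
      rw [QP.hr_aff]
      exact Height.logHeight_nonneg _
    have h4 : R3 T (z3 x) ≤ 1 / M * hr (aff x) := by
      have h5 : ((3 : ℕ) : ℝ) - κ ≤ 1 / M := by
        rw [hκ]; push_cast; linarith
      have h6 := mul_le_mul_of_nonneg_right h5 hhr
      rw [add_zero] at h2
      exact hR3.trans (h2.le.trans h6)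
    have h7 : d * (M * Real.log X - lossK K / d) = d * (M * Real.log X) - lossK K := by
      field_simp
    rw [h7] at h3
    refine ⟨hPt, ?_, ?_, ?_⟩
    · have h8 : hr (aff x) ≤ d * (M * Real.log X) := by linarith
      have h9 : 1 / M * hr (aff x) ≤ 1 / M * (d * (M * Real.log X)) :=
        mul_le_mul_of_nonneg_left h8 (by positivity)
      have h10 : 1 / M * (d * (M * Real.log X)) = d * Real.log X := by field_simp
      linarith
    · have h8 := mul_le_mul_of_nonneg_left h4 hM0.le
      have h9 : M * (1 / M * hr (aff x)) = hr (aff x) := by field_simp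
      exact h8.trans (h9.le.trans hb1)
    · linarith
  · refine le_trans ?_ hcard
    rw [mul_assoc]
    refine mul_le_mul_of_nonneg_left ?_ hC.le
    rw [Real.mul_rpow hR0.le (by positivity)]
    refine mul_le_mul_of_nonneg_left ?_ (by positivity)
    rw [← Real.rpow_mul hX0.le]
    refine Real.rpow_le_rpow_of_exponent_le hX1 ?_
    have h8 : d * M * ε ≤ δ := by
      have := mul_le_mul_of_nonneg_left hε1 (show 0 ≤ d * M by positivity)
      rwa [mul_div_cancel₀ _ (by positivity)] at this
    have h9 : M * (d * (2 - κ)) = d * (1 - M) - d * M * ε := by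
      rw [hκ]
      field_simp
      ring
    rw [← hd, h9]
    linarith

end Pool.Agent.R365.RC
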